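import Pool.Agent.Lib.Pc0b458I.Main

/-!
# MP_c0b458_ag: Q1 follows from positivity on indecomposable classes

`Pc0b458I.Family` is a family of polarised abelian varieties `X i` with complex multiplication, for
example all of them over the algebraic closures of the finite fields: `Pc0b458Z.NumAb` is the ring
of cycles modulo numerical equivalence, `Pc0b458Z.CMAb` lists elementary properties of the classes
of effective cycles in the cohomology ring (file `Pool.Agent.Lib.Pc0b458V.Stmt`), and
`Pc0b458I.Model` is the class map.

A class of codimension `n` on `X i` is decomposable (`Pc0b458I.Family.Dec`) if its pull-back to the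
product of `X i` with some abelian variety is obtained from classes of codimension less than `n` by
sums, products and primitive components. A primitive class is indecomposable
(`Pc0b458I.Family.Indec`) if it is orthogonal to all decomposable classes.

The form of Q1 is positive definite on the primitive classes of codimension at most `N` on all abelian
varieties `Y`, over any field, which have a reduction in the family, if and only if it is positive
semidefinite on the indecomposable classes of codimension `3, ..., N` on the members of the family.
-/

universe u v

namespace Pool.Agent.Results.MP_c0b458_ag.IndecomposableClasses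

open Pc0b458Z Pc0b458G Pc0b458I

theorem result (F : Family.{u, v}) (N : ℕ) :
    (∀ (i : F.I) (Y : NumAb.{u}) (_ : Specialisation Y (F.A i)) (n : ℕ), n ≤ N → 2 * n ≤ Y.g →
      Y.Positive n) ↔
    ∀ (i : F.I) (n : ℕ), 3 ≤ n → n ≤ N → 2 * n ≤ (F.X i).g → ∀ x, F.Indec i n x →
      0 ≤ (-1) ^ n * (F.X i).deg (x * x * (F.X i).L ^ ((F.X i).g - 2 * n)) :=
  main F N

end Pool.Agent.Results.MP_c0b458_ag.IndecomposableClasses
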