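import Pool.Agent.Lib.Pc0b458X.Main
import Pool.Agent.Lib.Pc0b458X.Facts

/-!
# MP_c0b458_ag: positivity for all powers of abelian fourfolds

`Pc0b458X.BuiltFrom X₀ Y` (file `Pool.Agent.Lib.Pc0b458X.Stmt`): the polarised abelian variety `Y`
over a field has a reduction all of whose simple factors occur in the abelian variety `B` with CM
datum `X₀` or are supersingular, for example `Y` is a power of `B`. The structure lists known
properties of this reduction: it has complex multiplication, cycles on `Y` specialise, theorems of
Tate and Ancona.

The statement of Q1 holds for `Y` in all codimensions if `B` has dimension at most four and is not in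
the family `Exceptional`, or if the nonsupersingular simple factors of `B` have commutative
endomorphism algebras and there is at most one relation between the Frobenius eigenvalues of `B`, or,
more generally, if the Galois group acts on the relations through a character (`Signed`).
-/

universe u

namespace Pool.Agent.Results.MP_c0b458_ag.PowersOfFourfolds

open Pc0b458Z Pc0b458X
open Pc0b458F (CMDatum)

theorem result {Γ : Galois} (X₀ : CMDatum Γ.G Γ.D Γ.c) :
    ((Fintype.card X₀.S ≤ 8 ∧ ¬ Exceptional X₀) ∨
      (Commutative X₀ ∧ eigenvalues X₀ ≤ 2 * rank X₀ + 2) ∨ Signed X₀ →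
      ∀ Y : NumAb.{u}, BuiltFrom X₀ Y → ∀ n, 2 * n ≤ Y.g → Y.Positive n) ∧
    (Exceptional X₀ → (∃ x y : X₀.S, ∀ g : Γ.G, g • x ≠ y) ∧
      (Finset.univ.filter fun x : X₀.S => X₀.s x = 0).card = 3 ∧
      (Finset.univ.filter fun x : X₀.S => X₀.s x = 1 / 2).card = 2) := by
  refine ⟨fun h Y R n hn => ?_, fun h => h.facts⟩
  rcases h with h | h | h
  · exact positive R (signed_of_small h.1 h.2) hn
  · exact positive R (signed_of_one h.1 h.2) hn
  · exact positive R h hn

end Pool.Agent.Results.MP_c0b458_ag.PowersOfFourfolds
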