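import Pool.Agent.Lib.Pc0b458S.Main

/-!
# MP_c0b458_ag: the numerical Hodge standard conjecture for abelian sixfolds

`Pc0b458.NumTheory` (file `Pool.Agent.Lib.Pc0b458.Theory`) lists standard, known properties of
the rings of numerical cycle classes on the abelian varieties over a fixed field.
`Pc0b458W.FpTheory` (file `Pool.Agent.Lib.Pc0b458S.Stmt`) adds known properties over an algebraic
closure of a finite field: elementary properties of effective cycles, and for every abelian
variety the action of a CM algebra, the cycle class map to the exterior algebra of the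
first cohomology, for all powers of the abelian variety, the action of a Galois group on the
homomorphisms from the CM algebra, the slopes, and known theorems of Tate, Ancona and Markman.

`Pc0b458W.Q1 T A` is the positivity of Q1 for all polarisations of `A` and all `n` with
`2 n ≤ dim A`. `Pc0b458W.Exceptional` describes the slopes of the only family of sixfolds which
is not covered; an exceptional sixfold has no supersingular factor and at each place at most
four of the twelve slopes are zero (`zeros` counts them).
-/

universe u

namespace Pool.Agent.Results.MP_c0b458_ag.Sixfolds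

open Pc0b458 Pc0b458W

theorem result (T₀ : Pc0b458W.FpTheory.{u}) :
    (∀ A : T₀.AV, T₀.dim A = 6 → ¬ Exceptional (T₀.sl A) → Q1 T₀.toNumTheory A) ∧
    (∀ (T : NumTheory.{u}) (S : Specialisation T T₀.toNumTheory) (A : T.AV), T.dim A = 6 →
      (∃ A₀ ∈ S.sp A, ¬ Exceptional (T₀.sl A₀)) → Q1 T A) ∧
    ∀ A : T₀.AV, Exceptional (T₀.sl A) →
      (fun _ => 1 / 2) ∉ T₀.sl A ∧ ∀ g : (T₀.gal A).G, zeros (T₀.sl A) g ≤ 4 := by
  refine ⟨fun A hA hne => q1_six T₀ A hA hne, fun T S A hA h => ?_, fun A h => h.facts⟩
  obtain ⟨A₀, hA₀, hne⟩ := h
  exact (q1_six T₀ A₀ ((S.dim_eq A A₀ hA₀).trans hA) hne).of_spec S hA₀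

end Pool.Agent.Results.MP_c0b458_ag.Sixfolds
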