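import Pool.Agent.Lib.Pc0b458E.MainQ
import Pool.Agent.Lib.Pc0b458E.Codes
import Pool.Agent.Lib.Pc0b458E.CodesP

/-!
# MP_c0b458_ag: abelian varieties whose centre is totally real

`Pc0b458Z.NumAb` (file `Pool.Agent.Lib.Pc0b458V.Stmt`) is the ring of cycles modulo numerical
equivalence on an abelian variety over a field with a polarisation `L`, and `Pc0b458Z.CMAb` lists
elementary properties of the classes of effective cycles on an abelian variety `A` with complex
multiplication, and on `A × A`, in the cohomology ring. The other definitions are in the files
`Pool.Agent.Lib.Pc0b458G.Stmt` and `Pool.Agent.Lib.Pc0b458E.Stmt`, `StmtG`, `StmtP`, `StmtS`.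

`X` is an abelian variety over any field `k`, with any polarisation, and the theorem is used with
`Y = X × X`, over an algebraic closure of `k` (`Pc0b458G.Product`). `A` is a reduction of `Y` over an
algebraic closure of a finite field, or `Y` itself (`Pc0b458G.Specialisation`).

* `Powers`: the cycles on the powers of `A`, in the `ℓ`-adic cohomology for a prime `ℓ` such that
  homological and numerical equivalence agree on `A`. Such a prime exists by a theorem of Clozel.
* `Saturated`: the algebraic weights of `A` are the weights on which a torus, the motivic group of
  `A`, acts trivially (Jannsen).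
* `Lie S` is the Lie algebra of the group of all automorphisms of the first cohomology which fix the
  classes of all algebraic cycles on `Y`.
* `Cartan S`: the CM algebra of `A` contains a maximal torus of this group. It exists by the theorems
  of Tate on endomorphisms and on divisors over finite fields.
* `Places S Γ`: the centre `F` of the algebra `End(X) ⊗ ℚ`, over the algebraic closure, is a totally
  real field, or a product of totally real fields, `Pl` is the set of its embeddings in `ℂ`, and `Γ`
  is the group of permutations of `Pl` given by the Galois group. By the theorems of Faltings, Zarhin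
  and Mori the centre of the commutant of `Lie S` is `F ⊗ ℂ`.

The conclusion is the positivity in Q1 for all polarisations and for all classes of codimension `n`.
The hypothesis on `F` is one of the following:

* the degree of `F` is at most five;
* `F` is a field of degree `d`, its Galois group is the symmetric or the alternating group, and `d` is
  odd or `n < d / 2`;
* `F` is a field of degree seven, or of prime degree `d` such that `2` is a primitive root modulo `d`.
-/

universe u

namespace Pool.Agent.Results.MP_c0b458_ag.TotallyRealCentre

open Pc0b458Z Pc0b458G Pc0b458E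

theorem result (X Y : NumAb.{u}) (P : Product X Y) (A : CMAb) (Pw : Powers A) (hA : Saturated A)
    (S : Specialisation Y A) (hC : Cartan S) (Pl : Type) [Fintype Pl] [DecidableEq Pl]
    (Γ : Subgroup (Equiv.Perm Pl)) (F : Places S Γ) (n : ℕ) (hn : 2 * n ≤ X.g)
    (hF : Fintype.card Pl ≤ 5 ∨
      ((∀ σ : Equiv.Perm Pl, σ.IsThreeCycle → σ ∈ Γ) ∧
        (Odd (Fintype.card Pl) ∨ 2 * n < Fintype.card Pl)) ∨
      ((∀ p q, ∃ γ ∈ Γ, γ p = q) ∧ (Fintype.card Pl = 7 ∨
        (Fintype.card Pl).Prime ∧ orderOf (2 : ZMod (Fintype.card Pl)) = Fintype.card Pl - 1)))
    (x : X.Z) (hx : x ∈ X.cod n) (hL : X.L ^ (X.g - 2 * n + 1) * x = 0) (h0 : x ≠ 0) :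
    0 < (-1) ^ n * X.deg (x * x * X.L ^ (X.g - 2 * n)) := by
  have hQ : QuadCode Γ n := by
    rcases hF with h | ⟨h, h'⟩ | ⟨h, h' | ⟨h', h2⟩⟩
    · exact quadCode_of_card h
    · exact quadCode_of_alt h h'
    · exact quadCode_of_seven h h'
    · exact quadCode_of_prime h h' h2
  exact mainQ P Pw hA S hC F hQ hn hx hL h0

end Pool.Agent.Results.MP_c0b458_ag.TotallyRealCentre
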